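import Pool.Agent.H646.CS.Main

set_option autoImplicit false

/-!
# A non-smooth aperiodic countable Borel equivalence relation which is not Borel bireducible with
# any countable Borel equivalence relation having a compact action realization

This is the negated form of Q1 of `MP_894ea6_lc`, in ZFC.
-/

namespace Pool.Agent.Results.MP_894ea6_lc.NoBireducibleCompactModel

/-- `E` is a countable Borel equivalence relation (CBER) on `X`. -/
structure IsCBER {X : Type} [MeasurableSpace X] (E : X → X → Prop) : Prop where
  /-- it is an equivalence relation -/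
  equiv : Equivalence E
  /-- it is a Borel subset of `X × X` -/
  borel : MeasurableSet {p : X × X | E p.1 p.2}
  /-- all classes are countable -/
  ctbl : ∀ x, {y | E x y}.Countable

/-- `E` is aperiodic: all its classes are infinite. -/
def Aperiodic {X : Type} (E : X → X → Prop) : Prop := ∀ x, {y | E x y}.Infinite

/-- `E` is smooth: it admits a Borel transversal. -/
def IsSmooth {X : Type} [MeasurableSpace X] (E : X → X → Prop) : Prop :=
  ∃ T : Set X, MeasurableSet T ∧ ∀ x, ∃! y, y ∈ T ∧ E x y

/-- `E ≤_B F`: there is a Borel map `f` with `x E x' ↔ f x F f x'`. -/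
def Reduces {X Y : Type} [MeasurableSpace X] [MeasurableSpace Y] (E : X → X → Prop)
    (F : Y → Y → Prop) : Prop :=
  ∃ f : X → Y, Measurable f ∧ ∀ x x' : X, E x x' ↔ F (f x) (f x')

/-- `F` admits a compact action realization: it is Borel isomorphic to the orbit equivalence
relation of a continuous action of a countable (discrete) group `Γ` on a compact Polish space
`K`. -/
def CompactRealizable {Y : Type} [MeasurableSpace Y] (F : Y → Y → Prop) : Prop :=
  ∃ (Γ : Type) (_ : Group Γ) (_ : Countable Γ)
    (K : Type) (_ : TopologicalSpace K) (_ : CompactSpace K) (_ : PolishSpace K)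
    (_ : MulAction Γ K) (_ : ContinuousConstSMul Γ K)
    (_ : MeasurableSpace K) (_ : BorelSpace K) (f : Y ≃ᵐ K),
    ∀ x y : Y, F x y ↔ ∃ g : Γ, g • f x = f y

/-- **Theorem.** There is an aperiodic non-smooth countable Borel equivalence relation `E` on an
uncountable standard Borel space such that no countable Borel equivalence relation (on any
standard Borel space, aperiodic or not) which is Borel bireducible with `E` admits a compact
action realization. -/
theorem result :
    ∃ (X : Type) (_ : MeasurableSpace X) (_ : StandardBorelSpace X) (E : X → X → Prop),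
      Uncountable X ∧ IsCBER E ∧ Aperiodic E ∧ ¬ IsSmooth E ∧
      ∀ (Y : Type) [MeasurableSpace Y] [StandardBorelSpace Y] (F : Y → Y → Prop),
        IsCBER F → Reduces E F → Reduces F E → ¬ CompactRealizable F := by
  obtain ⟨X, i1, i2, E, hu, hE, ha, hs, h⟩ := Pool.Agent.H646.CS.final
  exact ⟨X, i1, i2, E, hu, ⟨hE.equiv, hE.borel, hE.ctbl⟩, ha, hs,
    fun Y _ _ F hF h1 h2 => h Y F ⟨hF.equiv, hF.borel, hF.ctbl⟩ h1 h2⟩

end Pool.Agent.Results.MP_894ea6_lc.NoBireducibleCompactModel
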